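import Mathlib

/-!
# A checker for refutations

Variables: `32 i + j`, `i < j`: the vertices `i`, `j` are adjacent; `1024 + 4 i + k`: vertex `i` has `T`-colour `k`.
-/

set_option autoImplicit false

namespace Pool.Agent.W188.P5

/-- colours of the 22 vertices -/
def colL : List (Fin 4) := [0, 1, 2, 3, 2, 3, 1, 3, 1, 2, 0, 3, 0, 2, 0, 3, 0, 1, 0, 2, 0, 1]
/-- parents -/
def parL : List Nat := [0, 0, 0, 0, 1, 1, 2, 2, 3, 3, 4, 4, 5, 5, 6, 6, 7, 7, 8, 8, 9, 9]

def col (i : Nat) : Fin 4 := colL.getD i 0
def par (i : Nat) : Nat := parL.getD i 0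

def ev (i j : Nat) : Nat := if i < j then 32 * i + j else 32 * j + i
def tv (i k : Nat) : Nat := 1024 + (4 * i + k)

/-- the trivial clause -/
def triv : List (Nat × Bool) := [(0, true), (0, false)]

/-- the clause with a given code -/
def clause (r : Nat) : List (Nat × Bool) :=
  let a := (r / 8) % 32
  let b := (r / 256) % 32
  let m := (r / 8192) % 32
  let d := (r / 262144) % 32
  let e := (r / 8388608) % 32
  match r % 8 with
  | 0 => [(ev a b, false), (ev b m, false), (ev m d, false), (ev d e, false), (ev a m, true),
      (ev a d, true), (ev a e, true), (ev b d, true), (ev b e, true), (ev m e, true)]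
  | 1 => if m < 3 then [(ev a b, false), (tv a m, false), (tv b m, false)] else triv
  | 2 => [(tv a 0, true), (tv a 1, true), (tv a 2, true)]
  | 3 => if b < 3 ∧ m < 3 ∧ b ≠ m then [(tv a b, false), (tv a m, false)] else triv
  | 4 => if 0 < a ∧ a < 22 ∧ b < 22 ∧ m < 22 ∧ d < 22 ∧ col b = col (par a) ∧ col m = col (par a) ∧ col d = col a then
      [(ev b a, false), (ev b d, false), (ev m d, false), (ev m a, true)] else triv
  | 5 => if b < 22 ∧ m < 22 ∧ col b = 1 ∧ col m = 1 then
      [(ev b a, false), (ev b 0, false), (ev m a, false), (ev m 0, true), (ev a 0, true)]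
      else triv
  | 6 => if 0 < a ∧ a < 22 then [(ev a (par a), true)] else triv
  | _ => if a < 22 ∧ b < 22 ∧ col a = col b then [(ev a b, false)] else triv

def lfalse (pos neg : Nat) (l : Nat × Bool) : Bool := cond l.2 (neg.testBit l.1) (pos.testBit l.1)

def run : List Nat → Nat → Nat → List (Nat × Nat) → Bool
  | [], _, _, _ => false
  | n :: ns, pos, neg, st =>
    match n % 4 with
    | 0 =>
      match (clause (n / 4)).filter (fun l => !lfalse pos neg l) with
      | [(v, true)] => run ns (pos ||| 2 ^ v) neg st
      | [(v, false)] => run ns pos (neg ||| 2 ^ v) st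
      | _ => false
    | 1 => (clause (n / 4)).all (fun l => lfalse pos neg l) &&
      (match st with
        | [] => true
        | (p, q) :: st' => run ns p q st')
    | _ => run ns (pos ||| 2 ^ (n / 4)) neg ((pos, neg ||| 2 ^ (n / 4)) :: st)

/-- the assignment is consistent with the masks -/
def Cons (A : Nat → Prop) (s : Nat × Nat) : Prop :=
  (∀ v, s.1.testBit v = true → A v) ∧ (∀ v, s.2.testBit v = true → ¬ A v)

/-- a true literal -/
def Tr (A : Nat → Prop) (l : Nat × Bool) : Prop := if l.2 = true then A l.1 else ¬ A l.1

/-- all clauses hold -/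
def Sat (A : Nat → Prop) : Prop := ∀ r, ∃ l ∈ clause r, Tr A l

lemma not_lfalse {A : Nat → Prop} {pos neg : Nat} (h : Cons A (pos, neg)) {l : Nat × Bool}
    (hl : Tr A l) : lfalse pos neg l = false := by
  obtain ⟨v, b⟩ := l
  cases b with
  | true =>
    simp only [Tr, if_true] at hl
    simp only [lfalse, cond_true]
    by_contra hc
    exact h.2 v (by simpa using hc) hl
  | false =>
    simp only [Tr] at hl
    simp only [lfalse, cond_false]
    by_contra hc
    exact hl (h.1 v (by simpa using hc))

lemma cons_pos {A : Nat → Prop} {pos neg v : Nat} (h : Cons A (pos, neg)) (hv : A v) :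
    Cons A (pos ||| 2 ^ v, neg) := by
  refine ⟨fun w hw => ?_, h.2⟩
  simp only [Nat.testBit_or, Bool.or_eq_true, Nat.testBit_two_pow, decide_eq_true_eq] at hw
  rcases hw with hw | hw
  · exact h.1 w hw
  · exact hw ▸ hv

lemma cons_neg {A : Nat → Prop} {pos neg v : Nat} (h : Cons A (pos, neg)) (hv : ¬ A v) :
    Cons A (pos, neg ||| 2 ^ v) := by
  refine ⟨h.1, fun w hw => ?_⟩
  simp only [Nat.testBit_or, Bool.or_eq_true, Nat.testBit_two_pow, decide_eq_true_eq] at hw
  rcases hw with hw | hw
  · exact h.2 w hw
  · exact hw ▸ hv

theorem run_sound {A : Nat → Prop} (hA : Sat A) : ∀ (L : List Nat) (pos neg : Nat)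
    (st : List (Nat × Nat)), run L pos neg st = true →
      ¬ Cons A (pos, neg) ∧ ∀ s ∈ st, ¬ Cons A s := by
  intro L
  induction L with
  | nil => intro pos neg st h; simp [run] at h
  | cons n ns ih =>
    intro pos neg st h
    unfold run at h
    split at h
    · -- unit
      have key : ∀ l, (clause (n / 4)).filter (fun l => !lfalse pos neg l) = [l] →
          Cons A (pos, neg) → Tr A l := by
        intro l hl hc
        obtain ⟨l', hl', ht⟩ := hA (n / 4)
        have h1 := not_lfalse hc ht
        have h2 : l' ∈ (clause (n / 4)).filter (fun l => !lfalse pos neg l) := by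
          rw [List.mem_filter]
          exact ⟨hl', by rw [h1]; rfl⟩
        rw [hl, List.mem_singleton] at h2
        exact h2 ▸ ht
      split at h
      · rename_i v hv
        obtain ⟨h1, h2⟩ := ih _ _ _ h
        refine ⟨fun hc => h1 (cons_pos hc ?_), h2⟩
        have := key _ hv hc
        simpa [Tr] using this
      · rename_i v hv
        obtain ⟨h1, h2⟩ := ih _ _ _ h
        refine ⟨fun hc => h1 (cons_neg hc ?_), h2⟩
        have := key _ hv hc
        simpa [Tr] using this
      · simp at h
    · -- conflict
      rw [Bool.and_eq_true] at h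
      obtain ⟨h1, h2⟩ := h
      constructor
      · intro hc
        obtain ⟨l', hl', ht⟩ := hA (n / 4)
        have h3 := not_lfalse hc ht
        rw [List.all_eq_true] at h1
        have h4 := h1 l' hl'
        rw [h3] at h4
        simp at h4
      · cases st with
        | nil => intro s hs; simp at hs
        | cons s0 st' =>
          obtain ⟨p, q⟩ := s0
          simp only at h2
          obtain ⟨h5, h6⟩ := ih _ _ _ h2
          intro s hs
          rw [List.mem_cons] at hs
          rcases hs with hs | hs
          · rw [hs]; exact h5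
          · exact h6 s hs
    · -- split
      obtain ⟨h1, h2⟩ := ih _ _ _ h
      constructor
      · intro hc
        by_cases hv : A (n / 4)
        · exact h1 (cons_pos hc hv)
        · exact h2 _ List.mem_cons_self (cons_neg hc hv)
      · intro s hs
        exact h2 s (List.mem_cons_of_mem _ hs)

end Pool.Agent.W188.P5
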