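import Mathlib
import Pool.Agent.W188.P5.Check
import Pool.Agent.W188.P5.Cert

/-!
# No 3-colourable graph without induced 5-vertex path has a frozen 4-colouring
-/

set_option autoImplicit false

namespace Pool.Agent.W188.P5

/-- the mask of a list of variables -/
def init (L : List ℕ) : ℕ := L.foldr (fun v p => p ||| 2 ^ v) 0

lemma runA : run certA (init [tv 2 1, tv 1 1, tv 0 0]) 0 [] = true := by decide +kernel
lemma runB : run certB (init [tv 3 2, tv 2 2, tv 1 1, tv 0 0]) 0 [] = true := by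
  decide +kernel

variable {V : Type} {G : SimpleGraph V}

/-- no induced path on five vertices -/
def NoP5 (G : SimpleGraph V) : Prop := ∀ a b m d e : V, G.Adj a b → G.Adj b m → G.Adj m d →
  G.Adj d e → ¬ G.Adj a m → ¬ G.Adj a d → ¬ G.Adj a e → ¬ G.Adj b d → ¬ G.Adj b e → ¬ G.Adj m e →
  False

lemma noP5_of_empty (h : IsEmpty (SimpleGraph.pathGraph 5 ↪g G)) : NoP5 G := by
  intro a b m d e h1 h2 h3 h4 n1 n2 n3 n4 n5 n6
  apply h.false
  have n1' : ¬ G.Adj m a := fun h => n1 h.symm
  have n2' : ¬ G.Adj d a := fun h => n2 h.symm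
  have n3' : ¬ G.Adj e a := fun h => n3 h.symm
  have n4' : ¬ G.Adj d b := fun h => n4 h.symm
  have n5' : ¬ G.Adj e b := fun h => n5 h.symm
  have n6' : ¬ G.Adj e m := fun h => n6 h.symm
  have key : ∀ i j : Fin 5, G.Adj (![a, b, m, d, e] i) (![a, b, m, d, e] j) ↔
      (SimpleGraph.pathGraph 5).Adj i j := by
    intro i j
    rw [SimpleGraph.pathGraph_adj]
    fin_cases i <;> fin_cases j <;>
      simp [h1, h2, h3, h4, n1, n2, n3, n4, n5, n6, h1.symm, h2.symm, h3.symm, h4.symm, n1', n2',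
        n3', n4', n5', n6']
  have hinj : Function.Injective ![a, b, m, d, e] := by
    have d1 : a ≠ b := h1.ne
    have d2 : b ≠ m := h2.ne
    have d3 : m ≠ d := h3.ne
    have d4 : d ≠ e := h4.ne
    have d5 : a ≠ m := fun h => n2 (h ▸ h3)
    have d6 : a ≠ d := fun h => n1 (h ▸ h3.symm)
    have d7 : a ≠ e := fun h => n2 (h ▸ h4.symm)
    have d8 : b ≠ d := fun h => n2 (h ▸ h1)
    have d9 : b ≠ e := fun h => n3 (h ▸ h1)
    have d10 : m ≠ e := fun h => n5 (h ▸ h2)
    intro i j hij
    fin_cases i <;> fin_cases j <;> simp_all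
  exact ⟨⟨![a, b, m, d, e], hinj⟩, fun {i j} => key i j⟩

variable {κ : Type} [DecidableEq κ]

/-- the choice of a good neighbour -/
lemma top [Fintype V] (hG : NoP5 G) (c : V → κ) (hc : ∀ u v, G.Adj u v → c u ≠ c v) (v : V) (j : κ)
    (hj : ∃ w, G.Adj v w ∧ c w = j) :
    ∃ w, G.Adj v w ∧ c w = j ∧ ∀ u u' x, c u = c v → c u' = c v → c x = j →
      G.Adj u w → G.Adj u x → G.Adj u' x → G.Adj u' w := by
  classical
  set N : V → Finset V := fun w => Finset.univ.filter (fun u => c u = c v ∧ G.Adj u w) with hN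
  obtain ⟨w, hw, hmax⟩ := Finset.exists_max_image
    (Finset.univ.filter (fun w => G.Adj v w ∧ c w = j)) (fun w => (N w).card)
    (by obtain ⟨w, hw⟩ := hj; exact ⟨w, by simpa using hw⟩)
  rw [Finset.mem_filter] at hw
  obtain ⟨-, hvw, hcw⟩ := hw
  refine ⟨w, hvw, hcw, ?_⟩
  intro u u' x hu hu' hx huw hux hux'
  by_contra hno
  have hns : ∀ p q, c p = c q → ¬ G.Adj p q := fun p q h h' => hc p q h' h
  by_cases hvx : G.Adj v x
  · -- `N x` is larger than `N w`
    have h1 := hmax x (by simp [hvx, hx])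
    have h2 : N w ⊂ N x := by
      rw [Finset.ssubset_iff_of_subset]
      · exact ⟨u', by simp [hN, hu', hux'], by simp [hN, hno]⟩
      · intro p hp
        simp only [hN, Finset.mem_filter, Finset.mem_univ, true_and] at hp ⊢
        refine ⟨hp.1, ?_⟩
        by_contra hpx
        exact hG p w v x u' hp.2 hvw.symm hvx hux'.symm (hns _ _ hp.1) hpx
          (hns _ _ (hp.1.trans hu'.symm)) (hns _ _ (hcw.trans hx.symm)) (fun h => hno h.symm)
          (hns _ _ hu'.symm)
    have := Finset.card_lt_card h2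
    omega
  · exact hG v w u x u' hvw huw.symm hux hux'.symm (hns _ _ hu.symm) hvx (hns _ _ hu'.symm)
      (hns _ _ (hcw.trans hx.symm)) (fun h => hno h.symm) (hns _ _ (hu.trans hu'.symm))

/-- a vertex with a maximum neighbourhood in a colour class -/
lemma maxv [Fintype V] [Nonempty V] [Fintype κ] [Nontrivial κ] (hG : NoP5 G) (c : V → κ)
    (hc : ∀ u v, G.Adj u v → c u ≠ c v) :
    ∃ (y : V) (i : κ), i ≠ c y ∧ ∀ z u u', c u = i → c u' = i →
      G.Adj u z → G.Adj u y → G.Adj u' z → G.Adj u' y ∨ G.Adj z y := by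
  classical
  set N : V × κ → Finset V := fun w => Finset.univ.filter (fun u => c u = w.2 ∧ G.Adj u w.1) with hN
  obtain ⟨⟨y, i⟩, hw, hmax⟩ := Finset.exists_max_image
    (Finset.univ.filter (fun w : V × κ => w.2 ≠ c w.1)) (fun w => (N w).card)
    (by
      obtain ⟨y⟩ := (inferInstance : Nonempty V)
      obtain ⟨i, hi⟩ := exists_ne (c y)
      exact ⟨(y, i), by simpa using hi⟩)
  rw [Finset.mem_filter] at hw
  refine ⟨y, i, hw.2, ?_⟩
  intro z u u' hu hu' huz huy hu'z
  by_contra hcon
  push Not at hcon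
  have hns : ∀ p q, c p = c q → ¬ G.Adj p q := fun p q h h' => hc p q h' h
  have h1 := hmax (z, i) (by
    rw [Finset.mem_filter]
    refine ⟨Finset.mem_univ _, ?_⟩
    intro h
    exact hns u z (hu.trans h) huz)
  have h2 : N (y, i) ⊂ N (z, i) := by
    rw [Finset.ssubset_iff_of_subset]
    · exact ⟨u', by simp [hN, hu', hu'z], by simp [hN, hcon.1]⟩
    · intro p hp
      simp only [hN, Finset.mem_filter, Finset.mem_univ, true_and] at hp ⊢
      refine ⟨hp.1, ?_⟩
      by_contra hpz
      exact hG p y u z u' hp.2 huy.symm huz hu'z.symm (hns _ _ (hp.1.trans hu.symm)) hpz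
        (hns _ _ (hp.1.trans hu'.symm)) (fun h => hcon.2 h.symm) (fun h => hcon.1 h.symm)
        (hns _ _ (hu.trans hu'.symm))
  have := Finset.card_lt_card h2
  omega

/-- the tree of witnesses -/
def ff (y : V) (nx : V → Fin 4 → V) (e : Fin 4 → Fin 4) : ℕ → V
  | 0 => y
  | k + 1 => if h : par (k + 1) < k + 1 then nx (ff y nx e (par (k + 1))) (e (col (k + 1))) else y

lemma par_lt' : ∀ k < 22, 0 < k → par k < k := by decide

lemma col_par' : ∀ k < 22, 0 < k → col k ≠ col (par k) := by decide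

lemma par_lt (k : ℕ) (h0 : 0 < k) (hk : k < 22) : par k < k := par_lt' k hk h0

lemma col_par (k : ℕ) (h0 : 0 < k) (hk : k < 22) : col k ≠ col (par k) := col_par' k hk h0

lemma ff_eq (y : V) (nx : V → Fin 4 → V) (e : Fin 4 → Fin 4) {k : ℕ} (h0 : 0 < k) (hk : k < 22) :
    ff y nx e k = nx (ff y nx e (par k)) (e (col k)) := by
  obtain ⟨l, rfl⟩ : ∃ l, k = l + 1 := ⟨k - 1, by omega⟩
  rw [ff, dif_pos (par_lt _ h0 hk)]

/-- everything needed for the check -/
structure Hyp (G : SimpleGraph V) (c : V → Fin 4) (T : V → Fin 3) (nx : V → Fin 4 → V) (y : V)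
    (e : Fin 4 → Fin 4) : Prop where
  p5 : NoP5 G
  cp : ∀ u v, G.Adj u v → c u ≠ c v
  tp : ∀ u v, G.Adj u v → T u ≠ T v
  einj : Function.Injective e
  e0 : e 0 = c y
  nx1 : ∀ v j, j ≠ c v → G.Adj v (nx v j)
  nx2 : ∀ v j, j ≠ c v → c (nx v j) = j
  nx3 : ∀ v j, j ≠ c v → ∀ u u' x, c u = c v → c u' = c v → c x = j →
      G.Adj u (nx v j) → G.Adj u x → G.Adj u' x → G.Adj u' (nx v j)
  mx : ∀ z u u', c u = e 1 → c u' = e 1 →
      G.Adj u z → G.Adj u y → G.Adj u' z → G.Adj u' y ∨ G.Adj z y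

section

variable {c : V → Fin 4} {T : V → Fin 3} {nx : V → Fin 4 → V} {y : V} {e : Fin 4 → Fin 4}

lemma Hyp.col (H : Hyp G c T nx y e) : ∀ k, k < 22 → c (ff y nx e k) = e (col k) := by
  intro k
  induction k using Nat.strong_induction_on with
  | _ k ih =>
    intro hk
    rcases Nat.eq_zero_or_pos k with h0 | h0
    · subst h0
      rw [ff, ← H.e0]
      rfl
    · rw [ff_eq _ _ _ h0 hk]
      apply H.nx2
      rw [ih (par k) (par_lt k h0 hk) (lt_trans (par_lt k h0 hk) hk)]
      exact fun h => col_par k h0 hk (H.einj h)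

lemma Hyp.ne (H : Hyp G c T nx y e) {k : ℕ} (h0 : 0 < k) (hk : k < 22) :
    e (P5.col k) ≠ c (ff y nx e (par k)) := by
  rw [H.col (par k) (lt_trans (par_lt k h0 hk) hk)]
  exact fun h => col_par k h0 hk (H.einj h)

/-- the assignment -/
def asg (G : SimpleGraph V) (T : V → Fin 3) (f : ℕ → V) (v : ℕ) : Prop :=
  if v < 1024 then G.Adj (f (v / 32)) (f (v % 32)) else ((T (f ((v - 1024) / 4))) : ℕ) = (v - 1024) % 4

lemma asg_ev (G : SimpleGraph V) (T : V → Fin 3) (f : ℕ → V) {i j : ℕ} (hi : i < 32) (hj : j < 32) :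
    asg G T f (ev i j) ↔ G.Adj (f i) (f j) := by
  unfold asg ev
  split_ifs with h1 h2 h3
  · have e1 : (32 * i + j) / 32 = i := by omega
    have e2 : (32 * i + j) % 32 = j := by omega
    rw [e1, e2]
  · omega
  · have e1 : (32 * j + i) / 32 = j := by omega
    have e2 : (32 * j + i) % 32 = i := by omega
    rw [e1, e2]
    exact G.adj_comm _ _
  · omega

lemma asg_tv (G : SimpleGraph V) (T : V → Fin 3) (f : ℕ → V) {i k : ℕ} (hk : k < 4) :
    asg G T f (tv i k) ↔ ((T (f i)) : ℕ) = k := by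
  unfold asg tv
  rw [if_neg (by omega)]
  have e1 : (1024 + (4 * i + k) - 1024) / 4 = i := by omega
  have e2 : (1024 + (4 * i + k) - 1024) % 4 = k := by omega
  rw [e1, e2]

lemma triv_ok (A : ℕ → Prop) : ∃ l ∈ triv, Tr A l := by
  by_cases h : A 0
  · exact ⟨(0, true), by simp [triv], by simpa [Tr] using h⟩
  · exact ⟨(0, false), by simp [triv], by simpa [Tr] using h⟩

lemma Hyp.sat (H : Hyp G c T nx y e) : Sat (asg G T (ff y nx e)) := by
  intro r
  set f := ff y nx e with hf
  have ha : (r / 8) % 32 < 32 := Nat.mod_lt _ (by norm_num)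
  have hb : (r / 256) % 32 < 32 := Nat.mod_lt _ (by norm_num)
  have hm : (r / 8192) % 32 < 32 := Nat.mod_lt _ (by norm_num)
  have hd : (r / 262144) % 32 < 32 := Nat.mod_lt _ (by norm_num)
  have he : (r / 8388608) % 32 < 32 := Nat.mod_lt _ (by norm_num)
  unfold clause
  generalize (r / 8) % 32 = a at *
  generalize (r / 256) % 32 = b at *
  generalize (r / 8192) % 32 = m at *
  generalize (r / 262144) % 32 = d at *
  generalize (r / 8388608) % 32 = e' at *
  simp only
  by_contra hcon
  push Not at hcon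
  split at hcon
  · -- induced path
    have g : ∀ i j, i < 32 → j < 32 → (asg G T f (ev i j) ↔ G.Adj (f i) (f j)) :=
      fun i j hi hj => asg_ev G T f hi hj
    simp only [List.mem_cons, List.not_mem_nil, or_false, forall_eq_or_imp, forall_eq, Tr,
      if_true, Bool.false_eq_true, if_false, not_not, g a b ha hb, g b m hb hm, g m d hm hd,
      g d e' hd he, g a m ha hm, g a d ha hd, g a e' ha he, g b d hb hd, g b e' hb he,
      g m e' hm he] at hcon
    obtain ⟨h1, h2, h3, h4, h5, h6, h7, h8, h9, h10⟩ := hcon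
    exact H.p5 _ _ _ _ _ h1 h2 h3 h4 h5 h6 h7 h8 h9 h10
  · split_ifs at hcon with hm3
    · simp only [List.mem_cons, List.not_mem_nil, or_false, forall_eq_or_imp, forall_eq, Tr,
        Bool.false_eq_true, if_false, not_not, asg_ev G T f ha hb,
        asg_tv G T f (show m < 4 by omega)] at hcon
      obtain ⟨h1, h2, h3⟩ := hcon
      exact H.tp _ _ h1 (Fin.ext (h2.trans h3.symm))
    · obtain ⟨l, hl, ht⟩ := triv_ok (asg G T f)
      exact hcon l hl ht
  · simp only [List.mem_cons, List.not_mem_nil, or_false, forall_eq_or_imp, forall_eq, Tr,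
        if_true, asg_tv G T f (show 0 < 4 by norm_num), asg_tv G T f (show 1 < 4 by norm_num),
        asg_tv G T f (show 2 < 4 by norm_num)] at hcon
    obtain ⟨h1, h2, h3⟩ := hcon
    have := (T (f a)).isLt
    omega
  · split_ifs at hcon with hbm
    · simp only [List.mem_cons, List.not_mem_nil, or_false, forall_eq_or_imp, forall_eq, Tr,
        Bool.false_eq_true, if_false, not_not, asg_tv G T f (show b < 4 by omega),
        asg_tv G T f (show m < 4 by omega)] at hcon
      obtain ⟨h1, h2⟩ := hcon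
      exact hbm.2.2 (h1.symm.trans h2)
    · obtain ⟨l, hl, ht⟩ := triv_ok (asg G T f)
      exact hcon l hl ht
  · split_ifs at hcon with hc
    · obtain ⟨a0, a1, b1, m1, d1, k1, k2, k3⟩ := hc
      simp only [List.mem_cons, List.not_mem_nil, or_false, forall_eq_or_imp, forall_eq, Tr,
        if_true, Bool.false_eq_true, if_false, not_not, asg_ev G T f hb ha, asg_ev G T f hb hd,
        asg_ev G T f hm hd, asg_ev G T f hm ha] at hcon
      obtain ⟨h1, h2, h3, h4⟩ := hcon
      have hpa := lt_trans (par_lt a a0 a1) a1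
      apply h4
      rw [hf, ff_eq _ _ _ a0 a1] at h1 ⊢
      refine H.nx3 _ _ (H.ne a0 a1) (f b) (f m) (f d) ?_ ?_ ?_ h1 h2 h3
      · rw [hf, H.col b b1, H.col (par a) hpa, k1]
      · rw [hf, H.col m m1, H.col (par a) hpa, k2]
      · rw [hf, H.col d d1, k3]
    · obtain ⟨l, hl, ht⟩ := triv_ok (asg G T f)
      exact hcon l hl ht
  · split_ifs at hcon with hc
    · obtain ⟨b1, m1, k1, k2⟩ := hc
      simp only [List.mem_cons, List.not_mem_nil, or_false, forall_eq_or_imp, forall_eq, Tr,
        if_true, Bool.false_eq_true, if_false, not_not, asg_ev G T f hb ha,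
        asg_ev G T f hb (show 0 < 32 by norm_num), asg_ev G T f hm ha,
        asg_ev G T f hm (show 0 < 32 by norm_num), asg_ev G T f ha (show 0 < 32 by norm_num)] at hcon
      obtain ⟨h1, h2, h3, h4, h5⟩ := hcon
      have hy : f 0 = y := by rw [hf, ff]
      rw [hy] at h2 h4 h5
      rcases H.mx (f a) (f b) (f m) (by rw [hf, H.col b b1, k1]) (by rw [hf, H.col m m1, k2])
        h1 h2 h3 with h | h
      · exact h4 h
      · exact h5 h
    · obtain ⟨l, hl, ht⟩ := triv_ok (asg G T f)
      exact hcon l hl ht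
  · split_ifs at hcon with hc
    · have hpa := lt_trans (par_lt a hc.1 hc.2) hc.2
      simp only [List.mem_cons, List.not_mem_nil, or_false, forall_eq, Tr,
        if_true, asg_ev G T f ha (show par a < 32 by omega)] at hcon
      apply hcon
      have h1 := H.nx1 (f (par a)) (e (P5.col a)) (H.ne hc.1 hc.2)
      rw [hf, ff_eq y nx e hc.1 hc.2]
      exact h1.symm
    · obtain ⟨l, hl, ht⟩ := triv_ok (asg G T f)
      exact hcon l hl ht
  · split_ifs at hcon with hc
    · obtain ⟨a1, b1, k1⟩ := hc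
      simp only [List.mem_cons, List.not_mem_nil, or_false, forall_eq, Tr,
        Bool.false_eq_true, if_false, not_not, asg_ev G T f ha hb] at hcon
      apply H.cp _ _ hcon
      rw [hf, H.col a a1, H.col b b1, k1]
    · obtain ⟨l, hl, ht⟩ := triv_ok (asg G T f)
      exact hcon l hl ht

lemma cons_init (A : ℕ → Prop) : ∀ L : List ℕ, (∀ v ∈ L, A v) →
    Cons A (init L, 0) := by
  intro L
  induction L with
  | nil => intro _; exact ⟨fun v hv => by simp [init] at hv, fun v hv => by simp at hv⟩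
  | cons v L ih =>
    intro h
    exact cons_pos (ih (fun w hw => h w (List.mem_cons_of_mem _ hw))) (h v List.mem_cons_self)

lemma Hyp.caseA (H : Hyp G c T nx y e) (h0 : T y = 0) (h1 : T (nx y (e 1)) = 1)
    (h2 : T (nx y (e 2)) = 1) : False := by
  have e1 : ff y nx e 0 = y := by rw [ff]
  have e2 : ff y nx e 1 = nx y (e 1) := by
    rw [ff_eq _ _ _ (by norm_num) (by norm_num), show par 1 = 0 by decide,
      show P5.col 1 = 1 by decide, e1]
  have e3 : ff y nx e 2 = nx y (e 2) := by
    rw [ff_eq _ _ _ (by norm_num) (by norm_num), show par 2 = 0 by decide,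
      show P5.col 2 = 2 by decide, e1]
  refine (run_sound H.sat _ _ _ _ runA).1 ?_
  have := cons_init (asg G T (ff y nx e)) [tv 2 1, tv 1 1, tv 0 0] (by
    intro v hv
    simp only [List.mem_cons, List.not_mem_nil, or_false] at hv
    rcases hv with rfl | rfl | rfl
    · rw [asg_tv _ _ _ (by norm_num), e3, h2]; rfl
    · rw [asg_tv _ _ _ (by norm_num), e2, h1]; rfl
    · rw [asg_tv _ _ _ (by norm_num), e1, h0]; rfl)
  exact this

lemma Hyp.caseB (H : Hyp G c T nx y e) (h0 : T y = 0) (h1 : T (nx y (e 1)) = 1)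
    (h2 : T (nx y (e 2)) = 2) (h3 : T (nx y (e 3)) = 2) : False := by
  have e1 : ff y nx e 0 = y := by rw [ff]
  have e2 : ff y nx e 1 = nx y (e 1) := by
    rw [ff_eq _ _ _ (by norm_num) (by norm_num), show par 1 = 0 by decide,
      show P5.col 1 = 1 by decide, e1]
  have e3 : ff y nx e 2 = nx y (e 2) := by
    rw [ff_eq _ _ _ (by norm_num) (by norm_num), show par 2 = 0 by decide,
      show P5.col 2 = 2 by decide, e1]
  have e4 : ff y nx e 3 = nx y (e 3) := by
    rw [ff_eq _ _ _ (by norm_num) (by norm_num), show par 3 = 0 by decide,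
      show P5.col 3 = 3 by decide, e1]
  refine (run_sound H.sat _ _ _ _ runB).1 ?_
  have := cons_init (asg G T (ff y nx e)) [tv 3 2, tv 2 2, tv 1 1, tv 0 0] (by
    intro v hv
    simp only [List.mem_cons, List.not_mem_nil, or_false] at hv
    rcases hv with rfl | rfl | rfl | rfl
    · rw [asg_tv _ _ _ (by norm_num), e4, h3]; rfl
    · rw [asg_tv _ _ _ (by norm_num), e3, h2]; rfl
    · rw [asg_tv _ _ _ (by norm_num), e2, h1]; rfl
    · rw [asg_tv _ _ _ (by norm_num), e1, h0]; rfl)
  exact this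

end

end Pool.Agent.W188.P5
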